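import Pool.Agent.W837.GB.Defs

set_option autoImplicit false
open MeasureTheory ProbabilityTheory

namespace Pool.Agent.W462.GB

open Pool.Agent.W837.GB

theorem isGaussian_gam (ι : Type) [Fintype ι] : IsGaussian (gam ι) := by
  have h1 : iIndepFun (fun (i : ι) (ω : ι → ℝ) => ω i) (gam ι) := by
    unfold gam
    exact iIndepFun_pi (μ := fun _ : ι => gaussianReal 0 1)
      (X := fun (_ : ι) (x : ℝ) => x) (fun _ => aemeasurable_id)
  have h2 : ∀ i : ι, HasGaussianLaw (fun ω : ι → ℝ => ω i) (gam ι) := by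
    intro i
    refine ⟨?_⟩
    have : (gam ι).map (fun ω : ι → ℝ => ω i) = gaussianReal 0 1 :=
      (measurePreserving_eval (fun _ : ι => gaussianReal 0 1) i).map_eq
    rw [this]
    infer_instance
  have h3 := (iIndepFun.hasGaussianLaw h2 h1).isGaussian_map
  have h4 : (gam ι).map (fun ω : ι → ℝ => (fun i => ω i)) = gam ι := Measure.map_id
  rwa [h4] at h3

theorem integral_gam (ι : Type) [Fintype ι] : ∫ x, x ∂(gam ι) = 0 := by
  have := isGaussian_gam ι
  have hint : Integrable (fun x : ι → ℝ => x) (gam ι) := IsGaussian.integrable_id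
  ext i
  rw [eval_integral (fun i => hint.eval i)]
  unfold gam
  rw [integral_eval]
  simp

theorem rot : S_ROT := by
  intro ι _ θ
  have h3 := isGaussian_gam ι
  have h6 : (gam ι)[id] = 0 := by
    simp only [id_eq]
    exact integral_gam ι
  have h4 := IsGaussian.map_rotation_eq_self h6 θ
  have h5 : (fun Z : (ι → ℝ) × (ι → ℝ) => ContinuousLinearMap.rotation θ Z) =
      (fun p : (ι → ℝ) × (ι → ℝ) =>
    ((fun i => Real.cos θ * p.1 i + Real.sin θ * p.2 i),
      (fun i => -Real.sin θ * p.1 i + Real.cos θ * p.2 i))) := by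
    funext Z
    rfl
  refine ⟨?_, ?_⟩
  · rw [← h5]
    exact (ContinuousLinearMap.rotation θ).continuous.measurable
  · rw [← h5]
    exact h4

end Pool.Agent.W462.GB
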